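import Pool.Agent.N328.PH.Seq
import Pool.Agent.N328.PH.Par

/-!
# Systems of pairwise anticommuting skew matrices with several parts
-/

set_option autoImplicit false
set_option linter.unusedSectionVars false

namespace Run7.h900.OD

open Matrix Finset
open scoped Kronecker
open Pool.Agent.Y342.SK
open Pool.Agent.N328.PH
open Pool.Agent.H108R3.Had (IsPU PU PUk)

variable {ι κ : Type} [Fintype ι] [DecidableEq ι] [Fintype κ] [DecidableEq κ] {c : ℤ}

/-- families of functions for the arms -/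
structure FamT (T κ : Type) [Fintype κ] (S q : ℕ) [NeZero q] (F : T → κ → ZMod q → ℤ)
    (s : T → ℤ) : Prop where
  hq : q = 2 * S + 1
  auto : ∀ t, ∑ a, circulant (F t a) * (circulant (F t a))ᵀ = s t • (1 : Matrix (ZMod q) (ZMod q) ℤ)
  cross : ∀ t t', t ≠ t' → ∑ a, circulant (F t a) * (circulant (F t' a))ᵀ =
    (0 : Matrix (ZMod q) (ZMod q) ℤ)
  zero : ∀ t a d, (d.val = 0 ∨ S < d.val) → F t a d = 0
  cover : ∀ a (d : ZMod q), 1 ≤ d.val → d.val ≤ S → ∃ t, Sg (F t a d) ∧ ∀ t', t' ≠ t → F t' a d = 0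

/-- the part at shift zero -/
structure Zero (T : Type) (G : Arms ι κ c) (X : T → Matrix ι ι ℤ) (w : T → ℤ) : Prop where
  XT : ∀ t, (X t)ᵀ = -X t
  XX : ∀ t, X t * X t = (-(w t)) • (1 : Matrix ι ι ℤ)
  XA : ∀ t a, Rel (-1) (X t) (G.A a)
  anti : ∀ t t', t ≠ t' → X t * X t' + X t' * X t = 0
  X0 : ∀ t x, X t x x = 0
  cover : ∀ x y, x ≠ y → ∃ t, Sg (X t x y) ∧ ∀ t', t' ≠ t → X t' x y = 0

/-- a system -/
structure SysT (T ν : Type) [Fintype ν] [DecidableEq ν] (M : T → Matrix ν ν ℤ) (w : T → ℤ) : Prop where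
  MT : ∀ t, (M t)ᵀ = -M t
  MM : ∀ t, M t * M t = (-(w t)) • (1 : Matrix ν ν ℤ)
  anti : ∀ t t', t ≠ t' → M t * M t' + M t' * M t = 0
  M0 : ∀ t x, M t x x = 0
  cover : ∀ x y, x ≠ y → ∃ t, Sg (M t x y) ∧ ∀ t', t' ≠ t → M t' x y = 0

section sys

variable {T : Type} {G : Arms ι κ c} {X : T → Matrix ι ι ℤ} {w : T → ℤ} {S q : ℕ} [NeZero q]
  {F : T → κ → ZMod q → ℤ} {s : T → ℤ}

/-- the skew matrices -/
def Mt (G : Arms ι κ c) (X : T → Matrix ι ι ℤ) (F : T → κ → ZMod q → ℤ) (t : T) :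
    Matrix (ι × ZMod q) (ι × ZMod q) ℤ :=
  X t ⊗ₖ (1 : Matrix (ZMod q) (ZMod q) ℤ) + Wm G fun a => circulant (F t a)

theorem Mt_T (h : Zero T G X w) (t : T) : (Mt G X F t)ᵀ = -Mt G X F t := by
  unfold Mt
  rw [transpose_add, WmT, ← kroneckerMap_transpose, transpose_one, h.XT]
  ext i j
  simp only [Matrix.add_apply, Matrix.neg_apply, kroneckerMap_apply]
  ring

theorem Mt_sq (h : Zero T G X w) (hF : FamT T κ S q F s) (t : T) :
    Mt G X F t * Mt G X F t = (-(w t + c * s t)) • (1 : Matrix (ι × ZMod q) _ ℤ) := by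
  have h1 := one_Wm G (fun a => circulant (F t a)) (h.XA t) (h.XT t)
  have h2 := Wm_sq G (fun a => circulant (F t a)) (fun a b => circ_comm _ _)
    (fun a b => circ_commT _ _) (hF.auto t)
  have h3 : (X t ⊗ₖ (1 : Matrix (ZMod q) (ZMod q) ℤ)) * (X t ⊗ₖ 1) =
      (-(w t)) • (1 : Matrix (ι × ZMod q) _ ℤ) := by
    rw [← mul_kronecker_mul, h.XX, one_mul, smul_kronecker, one_kronecker_one]
  unfold Mt
  rw [add_mul, mul_add, mul_add, h2, h3]
  have e : ∀ a b c d : Matrix (ι × ZMod q) (ι × ZMod q) ℤ, a + b + (c + d) = (b + c) + (a + d) := by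
    intro a b c d; abel
  rw [e, h1, zero_add, ← add_smul]
  congr 1
  ring

theorem Mt_anti (h : Zero T G X w) (hF : FamT T κ S q F s) (t t' : T) (htt : t ≠ t') :
    Mt G X F t * Mt G X F t' + Mt G X F t' * Mt G X F t = 0 := by
  have h1 := one_Wm G (fun a => circulant (F t' a)) (h.XA t) (h.XT t)
  have h1' := one_Wm G (fun a => circulant (F t a)) (h.XA t') (h.XT t')
  have h2 := Wm_Wm G (fun a => circulant (F t a)) (fun a => circulant (F t' a))
    (fun _ _ => circ_comm _ _) (fun _ _ => circ_commT _ _) (fun _ _ => circ_commT _ _) (s := 0)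
    (by rw [hF.cross t t' htt, zero_smul])
  have h3 : (X t ⊗ₖ (1 : Matrix (ZMod q) (ZMod q) ℤ)) * (X t' ⊗ₖ 1) +
      (X t' ⊗ₖ (1 : Matrix (ZMod q) (ZMod q) ℤ)) * (X t ⊗ₖ 1) = 0 := by
    rw [← mul_kronecker_mul, ← mul_kronecker_mul, ← add_kronecker, h.anti t t' htt, zero_kronecker]
  rw [mul_zero, mul_zero, neg_zero, zero_smul] at h2
  unfold Mt
  rw [add_mul, mul_add, mul_add, add_mul, mul_add, mul_add]
  have e : ∀ a b c d a' b' c' d' : Matrix (ι × ZMod q) (ι × ZMod q) ℤ,
      a + b + (c + d) + (a' + b' + (c' + d')) = (a + a') + (b + c') + (b' + c) + (d + d') := by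
    intro a b c d a' b' c' d'; abel
  rw [e, h3, h1, h1', h2]
  simp

theorem Mt_apply (t : T) (x y : ι) (i j : ZMod q) : Mt G X F t (x, i) (y, j) =
    (if i = j then X t x y else 0) + ((∑ a, G.A a x y * F t a (i - j)) -
      ∑ a, G.A a y x * F t a (j - i)) := by
  simp only [Mt, Pool.Agent.N328.PH.Wm, Pool.Agent.N328.PH.Qm, Matrix.add_apply, Matrix.sub_apply, transpose_apply, Matrix.sum_apply,
    kroneckerMap_apply, Matrix.one_apply, mul_ite, mul_one, mul_zero]
  rfl

theorem Mt_self (h : Zero T G X w) (hF : FamT T κ S q F s) (t : T) (x : ι × ZMod q) :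
    Mt G X F t x x = 0 := by
  obtain ⟨x, i⟩ := x
  rw [Mt_apply, if_pos rfl, sub_self]
  have h0 : ∀ a, F t a 0 = 0 := fun a => hF.zero t a 0 (Or.inl ZMod.val_zero)
  simp only [h0, mul_zero, Finset.sum_const_zero, sub_zero, add_zero]
  exact h.X0 t x

theorem Mt_cover (h : Zero T G X w) (hF : FamT T κ S q F s) (x y : ι × ZMod q) (hne : x ≠ y) :
    ∃ t, Sg (Mt G X F t x y) ∧ ∀ t', t' ≠ t → Mt G X F t' x y = 0 := by
  obtain ⟨x, i⟩ := x
  obtain ⟨y, j⟩ := y
  simp only [Mt_apply]
  have h0 : ∀ t a, F t a 0 = 0 := fun t a => hF.zero t a 0 (Or.inl ZMod.val_zero)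
  have hq := hF.hq
  by_cases hij : i = j
  · subst hij
    have hxy : x ≠ y := fun h' => hne (by rw [h'])
    simp only [if_true, sub_self, h0, mul_zero, Finset.sum_const_zero, sub_zero, add_zero]
    exact h.cover x y hxy
  · simp only [if_neg hij, zero_add]
    have hd : (i - j).val ≠ 0 := by
      rw [Ne, ZMod.val_eq_zero, sub_eq_zero]
      exact hij
    have hlt := ZMod.val_lt (i - j)
    have hneg : (j - i).val = q - (i - j).val := by
      have : j - i = -(i - j) := by ring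
      rw [this, ZMod.neg_val, if_neg (sub_ne_zero.2 hij)]
    by_cases hle : (i - j).val ≤ S
    · have h1 : ∀ t a, F t a (j - i) = 0 := fun t a => hF.zero t a _ (Or.inr (by omega))
      simp only [h1, mul_zero, Finset.sum_const_zero, sub_zero]
      obtain ⟨a, ha, hb⟩ := G.sup x y
      have h2 : ∀ t, ∑ b, G.A b x y * F t b (i - j) = G.A a x y * F t a (i - j) := by
        intro t
        rw [Finset.sum_eq_single a]
        · intro b _ hba
          rw [hb b hba, zero_mul]
        · intro h; exact absurd (mem_univ _) h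
      simp only [h2]
      obtain ⟨t, ht, ht'⟩ := hF.cover a (i - j) (by omega) hle
      exact ⟨t, ha.mul ht, fun t' h' => by rw [ht' t' h', mul_zero]⟩
    · have h1 : ∀ t a, F t a (i - j) = 0 := fun t a => hF.zero t a _ (Or.inr (by omega))
      simp only [h1, mul_zero, Finset.sum_const_zero, zero_sub]
      obtain ⟨a, ha, hb⟩ := G.sup y x
      have h2 : ∀ t, ∑ b, G.A b y x * F t b (j - i) = G.A a y x * F t a (j - i) := by
        intro t
        rw [Finset.sum_eq_single a]
        · intro b _ hba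
          rw [hb b hba, zero_mul]
        · intro h; exact absurd (mem_univ _) h
      simp only [h2]
      obtain ⟨t, ht, ht'⟩ := hF.cover a (j - i) (by omega) (by omega)
      exact ⟨t, (ha.mul ht).neg, fun t' h' => by rw [ht' t' h', mul_zero, neg_zero]⟩

theorem sysT (h : Zero T G X w) (hF : FamT T κ S q F s) :
    SysT T (ι × ZMod q) (Mt G X F) (fun t => w t + c * s t) where
  MT := Mt_T h
  MM := Mt_sq h hF
  anti := Mt_anti h hF
  M0 := Mt_self h hF
  cover := Mt_cover h hF

end sys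

/-- the part at shift zero of a pair -/
def Xp {m : ℕ} (P Q : Matrix ι ι ℤ) (t : Fin (m + 2)) : Matrix ι ι ℤ :=
  if t = 0 then P else if t = 1 then Q else 0

/-- the weights at shift zero -/
def wp {m : ℕ} (J d : ℤ) (t : Fin (m + 2)) : ℤ :=
  if t = 0 then d else if t = 1 then J - 1 - d else 0

theorem zero_of_pair {m : ℕ} {G : Arms ι κ c} {P Q : Matrix ι ι ℤ} {d : ℕ} (h : IsPair G P Q d) :
    Zero (Fin (m + 2)) G (Xp P Q) (wp (Fintype.card ι) d) where
  XT := fun t => by
    unfold Xp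
    split_ifs
    · exact h.hP.XT
    · exact h.hQ.XT
    · simp
  XX := fun t => by
    unfold Xp wp
    split_ifs
    · exact h.hP.XX
    · exact h.hQ.XX
    · simp
  XA := fun t a => by
    unfold Xp
    split_ifs
    · exact h.hP.XA a
    · exact h.hQ.XA a
    · unfold Pool.Agent.Y342.SK.Rel; simp
  anti := fun t t' htt => by
    have h1 := h.PQ
    unfold Pool.Agent.Y342.SK.Rel at h1
    unfold Xp
    split_ifs with h2 h3 h4 h5 h6 h7 h8
    · exact absurd (h2.trans h3.symm) htt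
    · rw [h1]; simp
    · simp
    · rw [h1]; simp
    · exact absurd (h5.trans h7.symm) htt
    · simp
    · simp
    · simp
    · simp
  X0 := fun t x => by
    unfold Xp
    split_ifs
    · exact h.P0 x
    · exact h.Q0 x
    · rfl
  cover := fun x y hxy => by
    have h01 : (1 : Fin (m + 2)) ≠ 0 := by
      intro h'
      have := congrArg Fin.val h'
      simp at this
    rcases h.PQ1 x y hxy with ⟨h1, h2⟩ | ⟨h1, h2⟩
    · refine ⟨0, ?_, fun t' ht' => ?_⟩
      · unfold Xp; rw [if_pos rfl]; exact h1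
      · unfold Xp; rw [if_neg ht']
        split_ifs
        · exact h2
        · rfl
    · refine ⟨1, ?_, fun t' ht' => ?_⟩
      · unfold Xp; rw [if_neg h01, if_pos rfl]; exact h2
      · unfold Xp
        split_ifs
        · exact h1
        · rfl

end Run7.h900.OD
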