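import Pool.Agent.Run7.h900.OD.Seq
import Pool.Agent.Y342.SK.Main

/-!
# Skew-Hadamard matrices with prescribed parts
-/

set_option autoImplicit false
set_option linter.unusedSectionVars false

namespace Run7.h900.OD

open Matrix Finset
open scoped Kronecker
open Pool.Agent.Y342.SK
open Pool.Agent.N328.PH
open Pool.Agent.H108R3.Had (IsPU PU PUk)

/-- reindexing -/
theorem SysT.reindex {T ν μ : Type} [Fintype ν] [DecidableEq ν] [Fintype μ] [DecidableEq μ]
    (e : μ ≃ ν) {M : T → Matrix ν ν ℤ} {w : T → ℤ} (h : SysT T ν M w) :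
    SysT T μ (fun t => (M t).submatrix e e) w where
  MT := fun t => by
    rw [transpose_submatrix, h.MT]
    rfl
  MM := fun t => by
    rw [submatrix_mul_equiv, h.MM]
    ext i j
    rw [Matrix.submatrix_apply, Matrix.smul_apply, Matrix.smul_apply, Matrix.one_apply,
      Matrix.one_apply]
    by_cases hij : i = j
    · rw [if_pos hij, if_pos (congrArg e hij)]
    · rw [if_neg hij, if_neg (fun h' => hij (e.injective h'))]
  anti := fun t t' htt => by
    rw [submatrix_mul_equiv, submatrix_mul_equiv]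
    have h1 := h.anti t t' htt
    have h2 := congrArg (fun A : Matrix ν ν ℤ => A.submatrix e e) h1
    exact h2
  M0 := fun t x => h.M0 t (e x)
  cover := fun x y hxy => h.cover (e x) (e y) (fun h' => hxy (e.injective h'))

/-- doubling -/
theorem SysT.double {T ν : Type} [DecidableEq T] [Fintype ν] [DecidableEq ν]
    {M : T → Matrix ν ν ℤ} {w : T → ℤ} (h : SysT T ν M w) (t0 : T) :
    SysT T (Fin 2 × ν) (fun t => hh ⊗ₖ M t + if t = t0 then ep ⊗ₖ (1 : Matrix ν ν ℤ) else 0)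
      (fun t => 2 * w t + if t = t0 then 1 else 0) := by
  have hhe : hh * ep + ep * hh = 0 := by decide
  have heh : ep * hh + hh * ep = 0 := by decide
  have hkM : ∀ t t', (hh ⊗ₖ M t) * (hh ⊗ₖ M t') = (2 : ℤ) • ((1 : Matrix (Fin 2) (Fin 2) ℤ) ⊗ₖ (M t * M t')) := by
    intro t t'
    rw [← mul_kronecker_mul, hh_hh, smul_kronecker]
  have hMe : ∀ t, (hh ⊗ₖ M t) * (ep ⊗ₖ (1 : Matrix ν ν ℤ)) + (ep ⊗ₖ (1 : Matrix ν ν ℤ)) * (hh ⊗ₖ M t) = 0 := by
    intro t
    rw [← mul_kronecker_mul, ← mul_kronecker_mul, mul_one, one_mul, ← add_kronecker, hhe, zero_kronecker]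
  have hee : (ep ⊗ₖ (1 : Matrix ν ν ℤ)) * (ep ⊗ₖ (1 : Matrix ν ν ℤ)) = -1 := by
    rw [← mul_kronecker_mul, mul_one, ep_ep]
    ext ⟨i, x⟩ ⟨j, y⟩
    simp only [kroneckerMap_apply, Matrix.neg_apply, Matrix.one_apply, Prod.mk.injEq]
    by_cases hij : i = j <;> by_cases hxy : x = y <;> simp [hij, hxy]
  refine ⟨fun t => ?_, fun t => ?_, fun t t' htt => ?_, fun t x => ?_, fun x y hxy => ?_⟩
  · rw [transpose_add, ← kroneckerMap_transpose, hhT, h.MT]
    by_cases ht : t = t0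
    · simp only [if_pos ht]
      rw [← kroneckerMap_transpose, epT, transpose_one]
      ext ⟨i, x⟩ ⟨j, y⟩
      simp only [Matrix.add_apply, Matrix.neg_apply, kroneckerMap_apply]
      ring
    · simp only [if_neg ht]
      rw [transpose_zero]
      ext ⟨i, x⟩ ⟨j, y⟩
      simp only [Matrix.add_apply, Matrix.neg_apply, kroneckerMap_apply, Matrix.zero_apply]
      ring
  · by_cases ht : t = t0
    · simp only [if_pos ht]
      have h1 := hMe t
      have h2 := hkM t t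
      rw [add_mul, mul_add, mul_add, h2, hee, h.MM]
      have e1 : ∀ a b c d : Matrix (Fin 2 × ν) (Fin 2 × ν) ℤ, a + b + (c + d) = (b + c) + (a + d) := by
        intro a b c d; abel
      rw [e1, h1, zero_add, kronecker_smul, one_kronecker_one]
      ext i j
      simp only [Matrix.add_apply, Matrix.smul_apply, Matrix.neg_apply, smul_eq_mul]
      ring
    · simp only [if_neg ht, add_zero]
      rw [hkM, h.MM, kronecker_smul, one_kronecker_one, smul_smul]
      congr 1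
      ring
  · have h3 : (hh ⊗ₖ M t) * (hh ⊗ₖ M t') + (hh ⊗ₖ M t') * (hh ⊗ₖ M t) = 0 := by
      rw [hkM, hkM, ← smul_add, ← kronecker_add, h.anti t t' htt, kronecker_zero, smul_zero]
    have h1 := hMe t
    have h2 := hMe t'
    by_cases ht : t = t0
    · have ht' : t' ≠ t0 := fun h' => htt (ht.trans h'.symm)
      simp only [if_pos ht, if_neg ht', add_zero]
      rw [add_mul, mul_add]
      have e1 : ∀ a b c d : Matrix (Fin 2 × ν) (Fin 2 × ν) ℤ, a + b + (c + d) = (a + c) + (d + b) := by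
        intro a b c d; abel
      rw [e1, h3, h2, zero_add]
    · by_cases ht' : t' = t0
      · simp only [if_pos ht', if_neg ht, add_zero]
        rw [add_mul, mul_add]
        have e1 : ∀ a b c d : Matrix (Fin 2 × ν) (Fin 2 × ν) ℤ, a + b + (c + d) = (a + c) + (b + d) := by
          intro a b c d; abel
        rw [e1, h3, h1, zero_add]
      · simp only [if_neg ht', if_neg ht, add_zero]
        exact h3
  · obtain ⟨i, x⟩ := x
    simp only [Matrix.add_apply, kroneckerMap_apply, h.M0, mul_zero, zero_add]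
    by_cases ht : t = t0
    · simp only [if_pos ht, kroneckerMap_apply, ep_self, zero_mul]
    · simp only [if_neg ht, Matrix.zero_apply]
  · obtain ⟨i, x⟩ := x
    obtain ⟨j, y⟩ := y
    by_cases hxy' : x = y
    · subst hxy'
      have hij : i ≠ j := fun h' => hxy (by rw [h'])
      refine ⟨t0, ?_, fun t' ht' => ?_⟩
      · simp only [Matrix.add_apply, kroneckerMap_apply, h.M0, mul_zero, zero_add, if_true,
          Matrix.one_apply_eq, mul_one]
        exact ep_ne i j hij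
      · simp only [if_neg ht', Matrix.add_apply, kroneckerMap_apply, h.M0, mul_zero, zero_add,
          Matrix.zero_apply]
    · obtain ⟨t, ht, ht'⟩ := h.cover x y hxy'
      have hz : ∀ t : T, (if t = t0 then ep ⊗ₖ (1 : Matrix ν ν ℤ) else 0) (i, x) (j, y) = 0 := by
        intro t
        by_cases h' : t = t0
        · rw [if_pos h', kroneckerMap_apply, Matrix.one_apply_ne hxy', mul_zero]
        · rw [if_neg h']; rfl
      refine ⟨t, ?_, fun t' h' => ?_⟩
      · simp only [Matrix.add_apply, kroneckerMap_apply]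
        rw [hz t, add_zero]
        exact (hh_sg _ _).mul ht
      · simp only [Matrix.add_apply, kroneckerMap_apply]
        rw [hz t', ht' t' h', mul_zero, zero_add]

/-- all weights, those of index at least two divisible by `D` -/
def Good (m D N : ℕ) : Prop := ∀ w : Fin (m + 2) → ℕ, ∑ i, w i + 1 = N →
  (∀ i, i ≠ 0 → i ≠ 1 → D ∣ w i) →
    ∃ M : Fin (m + 2) → Matrix (Fin N) (Fin N) ℤ, SysT (Fin (m + 2)) (Fin N) M (fun i => (w i : ℤ))

theorem one_ne_zero' {m : ℕ} : (1 : Fin (m + 2)) ≠ 0 := by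
  intro h'
  have := congrArg Fin.val h'
  simp at this

theorem good_double {m D N : ℕ} (h : Good m D N) : Good m (2 * D) (2 * N) := by
  intro w hw hd
  have hev : ∀ i, i ≠ 0 → i ≠ 1 → 2 ∣ w i := fun i h0 h1 => (Dvd.intro _ rfl).trans (hd i h0 h1)
  have hsum : ∀ v : Fin (m + 2) → ℕ, ∑ i, v i = v 0 + v 1 + ∑ i : Fin m, v i.succ.succ := by
    intro v
    rw [Fin.sum_univ_succ, Fin.sum_univ_succ, ← add_assoc]
    rfl
  have hss : ∀ i : Fin m, (i.succ.succ : Fin (m + 2)) ≠ 0 ∧ (i.succ.succ : Fin (m + 2)) ≠ 1 := by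
    intro i
    refine ⟨Fin.succ_ne_zero _, fun h' => ?_⟩
    have := congrArg Fin.val h'
    simp at this
  have hrest : ∑ i : Fin m, w i.succ.succ = 2 * ∑ i : Fin m, w i.succ.succ / 2 := by
    rw [Finset.mul_sum]
    refine Finset.sum_congr rfl fun i _ => ?_
    have := hev _ (hss i).1 (hss i).2
    omega
  have hw' := hw
  rw [hsum w, hrest] at hw'
  obtain ⟨t0, ht0, ht01⟩ : ∃ t0 : Fin (m + 2), w t0 % 2 = 1 ∧ ∀ i, i ≠ t0 → w i % 2 = 0 := by
    by_cases h0 : w 0 % 2 = 1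
    · refine ⟨0, h0, fun i hi => ?_⟩
      by_cases h1 : i = 1
      · subst h1; omega
      · have := hev i hi h1; omega
    · refine ⟨1, by omega, fun i hi => ?_⟩
      by_cases h1 : i = 0
      · subst h1; omega
      · have := hev i h1 hi; omega
  have hdec : ∀ i, w i = 2 * (w i / 2) + if i = t0 then 1 else 0 := by
    intro i
    by_cases hi : i = t0
    · subst hi; rw [if_pos rfl]; omega
    · rw [if_neg hi]; have := ht01 i hi; omega
  have hsum2 : ∑ i, w i = 2 * (∑ i, w i / 2) + 1 := by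
    rw [Finset.sum_congr rfl fun i _ => hdec i, Finset.sum_add_distrib, ← Finset.mul_sum,
      Finset.sum_ite_eq' univ t0, if_pos (mem_univ _)]
  obtain ⟨M, hM⟩ := h (fun i => w i / 2) (by omega) (fun i h0 h1 => by
    obtain ⟨z, hz⟩ := hd i h0 h1
    refine ⟨z, ?_⟩
    change w i / 2 = D * z
    rw [hz, mul_assoc, Nat.mul_div_cancel_left _ (by norm_num)])
  have h2 := (hM.double t0).reindex (finProdFinEquiv (m := 2) (n := N)).symm
  have h5 : (fun i => ((w i : ℕ) : ℤ)) =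
      (fun t => 2 * ((w t / 2 : ℕ) : ℤ) + if t = t0 then 1 else 0) := by
    funext i
    have h4 : ((w i : ℕ) : ℤ) = ((2 * (w i / 2) + if i = t0 then 1 else 0 : ℕ) : ℤ) :=
      congrArg _ (hdec i)
    rw [h4]
    push_cast
    rfl
  rw [h5]
  exact ⟨_, h2⟩

theorem good_odd {k e S m J : ℕ} (hPU : ∀ l ≤ S, PUk k l) (hm : m + 2 ≤ 2 ^ e)
    (hJ : J = 2 ^ (5 * 2 ^ (k + e + 1) - 1)) : Good m J (J * (2 * S + 1)) := by
  intro w hw hd
  obtain ⟨ι, κ, i1, i2, i3, i4, c, hι, hκ, hG⟩ := exists_arms (k + e + 1)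
  rw [← hJ] at hι
  have hJ0 : 0 < J := by rw [hJ]; positivity
  obtain ⟨q, hq⟩ : ∃ q, q = 2 * S + 1 := ⟨_, rfl⟩
  have : NeZero q := ⟨by omega⟩
  obtain ⟨d, hdd⟩ : ∃ d, d = w 0 % J := ⟨_, rfl⟩
  have hdlt : d < J := by rw [hdd]; exact Nat.mod_lt _ hJ0
  obtain ⟨G, P, Q, hPQ⟩ := hG d (by rw [hι]; exact hdlt)
  have hc : c * 2 ^ (k + e) = J := by
    have h := G.hc
    rw [hκ, hι] at h
    push_cast at h
    rw [pow_succ] at h
    linarith
  -- the lengths
  have hsum : ∀ v : Fin (m + 2) → ℕ, ∑ i, v i = v 0 + v 1 + ∑ i : Fin m, v i.succ.succ := by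
    intro v
    rw [Fin.sum_univ_succ, Fin.sum_univ_succ, ← add_assoc]
    rfl
  have hss : ∀ i : Fin m, (i.succ.succ : Fin (m + 2)) ≠ 0 ∧ (i.succ.succ : Fin (m + 2)) ≠ 1 := by
    intro i
    refine ⟨Fin.succ_ne_zero _, fun h' => ?_⟩
    have := congrArg Fin.val h'
    simp at this
  have hrest : ∑ i : Fin m, w i.succ.succ = J * ∑ i : Fin m, w i.succ.succ / J := by
    rw [Finset.mul_sum]
    refine Finset.sum_congr rfl fun i _ => ?_
    exact (Nat.mul_div_cancel' (hd _ (hss i).1 (hss i).2)).symm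
  have hw' := hw
  rw [hsum w, hrest] at hw'
  have hdm := Nat.div_add_mod (w 0) J
  rw [← hdd] at hdm
  have h1 : J ∣ w 1 + 1 + d := by
    have h2 : w 1 + 1 + d + J * (w 0 / J + ∑ i : Fin m, w i.succ.succ / J) = J * (2 * S + 1) := by
      rw [mul_add]; omega
    exact (Nat.dvd_add_left (Dvd.intro _ rfl)).1 (h2 ▸ Dvd.intro _ rfl)
  obtain ⟨z, hz⟩ := h1
  have hz0 : 0 < z := by
    rcases Nat.eq_zero_or_pos z with h | h
    · rw [h, mul_zero] at hz; omega
    · exact h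
  obtain ⟨L1, rfl⟩ : ∃ L1, z = L1 + 1 := ⟨z - 1, by omega⟩
  obtain ⟨L, hLdef⟩ : ∃ L : Fin (m + 2) → ℕ, L = fun i => if i = 1 then L1 else w i / J := ⟨_, rfl⟩
  have hL0 : L 0 = w 0 / J := by rw [hLdef]; exact if_neg (Ne.symm one_ne_zero')
  have hL1 : L 1 = L1 := by rw [hLdef]; exact if_pos rfl
  have hLs : ∀ i : Fin m, L i.succ.succ = w i.succ.succ / J := by
    intro i; rw [hLdef]; exact if_neg (hss i).2
  have hLsum : ∑ i, L i = 2 * S := by
    rw [hsum L, hL0, hL1, Finset.sum_congr rfl fun i _ => hLs i]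
    have h3 : J * (w 0 / J + L1 + ∑ i : Fin m, w i.succ.succ / J + 1) = J * (2 * S + 1) := by
      rw [mul_add, mul_add, mul_add]
      rw [mul_add] at hz
      omega
    have := Nat.eq_of_mul_eq_mul_left hJ0 h3
    omega
  obtain ⟨F, s, hF, hs⟩ := exists_famT (κ := κ) hq hκ hm hPU L hLsum
  have hwi : ∀ i, ((w i : ℕ) : ℤ) = wp (Fintype.card ι) d i + c * s i := by
    intro i
    rw [hs i, ← mul_assoc, hc, hι]
    unfold wp
    by_cases hi0 : i = 0
    · subst hi0
      rw [if_pos rfl, hL0]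
      have h5 : ((J * (w 0 / J) + d : ℕ) : ℤ) = w 0 := by rw [hdm]
      rw [← h5]
      push_cast
      ring
    · by_cases hi1 : i = 1
      · subst hi1
        rw [if_neg hi0, if_pos rfl, hL1]
        have h5 : ((w 1 + 1 + d : ℕ) : ℤ) = ((J * (L1 + 1) : ℕ) : ℤ) := by rw [hz]
        push_cast at h5
        linarith
      · rw [if_neg hi0, if_neg hi1, zero_add]
        have h5 : L i = w i / J := by rw [hLdef]; exact if_neg hi1
        rw [h5]
        have h6 := Nat.mul_div_cancel' (hd i hi0 hi1)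
        exact_mod_cast h6.symm
  have hsys := sysT (zero_of_pair (m := m) hPQ) hF
  have hcard : Fintype.card (Fin (J * (2 * S + 1))) = Fintype.card (ι × ZMod q) := by
    rw [Fintype.card_fin, Fintype.card_prod, ZMod.card, hι, hq]
  have h2 := hsys.reindex (Fintype.equivOfCardEq hcard)
  have hww : (fun i => ((w i : ℕ) : ℤ)) =
      (fun t => wp (Fintype.card ι) d t + c * s t) := by
    funext i
    exact hwi i
  rw [hww]
  exact ⟨_, h2⟩
theorem good_pow {k e S m t : ℕ} (hPU : ∀ l ≤ S, PUk k l) (hm : m + 2 ≤ 2 ^ e)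
    (ht : 5 * 2 ^ (k + e + 1) - 1 ≤ t) : Good m (2 ^ t) (2 ^ t * (2 * S + 1)) := by
  obtain ⟨a, rfl⟩ := Nat.exists_eq_add_of_le ht
  clear ht
  induction a with
  | zero => exact good_odd hPU hm (by rw [add_zero])
  | succ a ih =>
    have h := good_double ih
    have e1 : 2 ^ (5 * 2 ^ (k + e + 1) - 1 + (a + 1)) = 2 * 2 ^ (5 * 2 ^ (k + e + 1) - 1 + a) := by
      rw [← add_assoc, pow_succ']
    rw [e1, mul_assoc]
    exact h

theorem main : ∃ C : ℕ, ∀ n q t m : ℕ, q % 2 = 1 → q ≤ Pool.Agent.W851.Had.tow n →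
    2 ^ C ^ (n + 1) * (m + 1) ≤ t → Good m (2 ^ t) (2 ^ t * q) := by
  obtain ⟨C, hC, h⟩ := Pool.Agent.W851.Had.main_pu
  refine ⟨C + 6, fun n q t m hq hqn ht => ?_⟩
  obtain ⟨S, rfl⟩ : ∃ S, q = 2 * S + 1 := ⟨q / 2, by omega⟩
  have h1 : ∀ l ≤ S, PUk (C ^ (n + 1)) l := fun l hl => h n l _ (by omega) le_rfl
  have h2 : C ^ (n + 1) + 6 ≤ (C + 6) ^ (n + 1) := by
    have h3 : C ^ (n + 1) + 6 ^ (n + 1) ≤ (C + 6) ^ (n + 1) :=
      pow_add_pow_le (by omega : 0 ≤ C) (by omega : 0 ≤ 6) (n := n + 1) (by omega)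
    have h4 : 6 ≤ 6 ^ (n + 1) := by
      calc 6 = 6 ^ 1 := by norm_num
        _ ≤ 6 ^ (n + 1) := Nat.pow_le_pow_right (by norm_num) (by omega)
    omega
  have h5 : m + 2 ≤ 2 ^ Nat.clog 2 (m + 2) := Nat.le_pow_clog (by norm_num) _
  have h6 : 2 ^ Nat.clog 2 (m + 2) ≤ 2 * (m + 2) := by
    have h7 := Nat.pow_pred_clog_lt_self (b := 2) (by norm_num) (x := m + 2) (by omega)
    have h8 : 0 < Nat.clog 2 (m + 2) := Nat.clog_pos (by norm_num) (by omega)
    obtain ⟨z, hz⟩ : ∃ z, Nat.clog 2 (m + 2) = z + 1 := ⟨Nat.clog 2 (m + 2) - 1, by omega⟩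
    rw [hz, Nat.pred_succ] at h7
    rw [hz, pow_succ]
    omega
  refine good_pow h1 h5 ?_
  have h10 : 2 ^ (C ^ (n + 1) + 6) ≤ 2 ^ (C + 6) ^ (n + 1) := Nat.pow_le_pow_right (by norm_num) h2
  have h11 : 5 * 2 ^ (C ^ (n + 1) + Nat.clog 2 (m + 2) + 1) ≤ t := by
    calc 5 * 2 ^ (C ^ (n + 1) + Nat.clog 2 (m + 2) + 1) =
        10 * 2 ^ (C ^ (n + 1)) * 2 ^ Nat.clog 2 (m + 2) := by rw [pow_succ, pow_add]; ring
      _ ≤ 10 * 2 ^ (C ^ (n + 1)) * (2 * (m + 2)) := Nat.mul_le_mul_left _ h6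
      _ ≤ 2 ^ (C ^ (n + 1) + 6) * (m + 1) := by
        rw [pow_add 2 (C ^ (n + 1)) 6]
        generalize 2 ^ C ^ (n + 1) = z
        nlinarith [Nat.zero_le (z * m), Nat.zero_le z]
      _ ≤ 2 ^ (C + 6) ^ (n + 1) * (m + 1) := Nat.mul_le_mul_right _ h10
      _ ≤ t := ht
  omega

theorem skew_add {ν : Type} [Fintype ν] [DecidableEq ν] {X : Matrix ν ν ℤ} (hT : Xᵀ = -X) :
    (1 + X) + (1 + X)ᵀ = (2 : ℤ) • (1 : Matrix ν ν ℤ) := by
  rw [transpose_add, transpose_one, hT, two_smul]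
  abel

theorem skew_mul {ν : Type} [Fintype ν] [DecidableEq ν] {X : Matrix ν ν ℤ} {N : ℤ} (hT : Xᵀ = -X)
    (hX : X * X = (-(N - 1)) • (1 : Matrix ν ν ℤ)) :
    (1 + X) * (1 + X)ᵀ = N • (1 : Matrix ν ν ℤ) := by
  rw [transpose_add, transpose_one, hT]
  have h : (1 + X) * (1 + -X) = 1 - X * X := by
    noncomm_ring
  rw [h, hX, neg_smul, sub_neg_eq_add, sub_smul, one_smul]
  abel

end Run7.h900.OD
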