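import Pool.Agent.Run7.h900.OD.Fam

/-!
# Families of sequences for several types
-/

set_option autoImplicit false
set_option linter.unusedSectionVars false

namespace Run7.h900.OD

open Matrix Finset
open scoped Kronecker
open Pool.Agent.Y342.SK
open Pool.Agent.N328.PH
open Pool.Agent.H108R3.Had (IsPU PU PUk)

theorem syl_sg (e : ℕ) (a b : Fin (2 ^ e)) : Sg (syl e a b) := (isK_syl e).sg a b

theorem syl_sq (e : ℕ) (a b : Fin (2 ^ e)) : syl e a b * syl e a b = 1 := by
  rcases syl_sg e a b with h | h <;> rw [h] <;> norm_num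

section fam

variable {T : Type} {k e S q : ℕ} [NeZero q]

/-- the functions -/
def FfT (q : ℕ) (W : ℕ → ℕ → Fin (2 ^ k) → ℤ) (o l : Fin 2 → T → ℕ) (idx : T → Fin (2 ^ e)) (t : T)
    (a : Fin 2 × Fin (2 ^ e) × Fin (2 ^ k)) (d : ZMod q) : ℤ :=
  syl e (idx t) a.2.1 * gS q (l a.1 t) (o a.1 t) (fun n => W (l a.1 t) n a.2.2) d

theorem fam_of_T (hq : q = 2 * S + 1) (W : ℕ → ℕ → Fin (2 ^ k) → ℤ)
    (hs : ∀ l ≤ S, ∀ n < l, ∀ a, Sg (W l n a))
    (hW : ∀ l ≤ S, ∀ d : ZMod q, ∑ j, ∑ n ∈ range l, ∑ m ∈ range l, (W l n j * W l m j) *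
      (if (n : ZMod q) - m = d then 1 else 0) = if d = 0 then ((2 ^ k * l : ℕ) : ℤ) else 0)
    (idx : T → Fin (2 ^ e)) (hidx : Function.Injective idx)
    (o l : Fin 2 → T → ℕ) (hol : ∀ u t, o u t + l u t ≤ S)
    (hcov : ∀ u s, s < S → ∃ t, (o u t ≤ s ∧ s < o u t + l u t) ∧
      ∀ t', t' ≠ t → ¬(o u t' ≤ s ∧ s < o u t' + l u t')) :
    FamT T (Fin 2 × Fin (2 ^ e) × Fin (2 ^ k)) S q (FfT q W o l idx)
      (fun t => ((2 ^ e * 2 ^ k * (l 0 t + l 1 t) : ℕ) : ℤ)) where
  hq := hq
  auto := fun t => by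
    ext i j
    rw [Matrix.sum_apply]
    have h1 : ∀ a : Fin 2 × Fin (2 ^ e) × Fin (2 ^ k),
        (circulant (FfT q W o l idx t a) * (circulant (FfT q W o l idx t a))ᵀ) i j =
        ∑ n ∈ range (l a.1 t), ∑ m ∈ range (l a.1 t), (W (l a.1 t) n a.2.2 * W (l a.1 t) m a.2.2) *
          (if (n : ZMod q) - m = i - j then 1 else 0) := by
      rintro ⟨u, b, a⟩
      rw [Matrix.mul_apply, ← gS_corr (o := o u t) (fun n => W (l u t) n a) i j]
      refine Finset.sum_congr rfl fun β _ => ?_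
      simp only [circulant_apply, transpose_apply, FfT]
      rw [mul_mul_mul_comm, syl_sq, one_mul]
    rw [Finset.sum_congr rfl fun a _ => h1 a, Fintype.sum_prod_type]
    have h2 : ∀ u : Fin 2, ∑ y : Fin (2 ^ e) × Fin (2 ^ k), (∑ n ∈ range (l u t), ∑ m ∈ range (l u t),
        (W (l u t) n y.2 * W (l u t) m y.2) * (if (n : ZMod q) - m = i - j then 1 else 0)) =
        2 ^ e * (if i - j = 0 then ((2 ^ k * l u t : ℕ) : ℤ) else 0) := by
      intro u
      rw [Fintype.sum_prod_type]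
      simp only []
      rw [hW (l u t) (le_trans (Nat.le_add_left _ _) (hol u t)) (i - j), Finset.sum_const,
        Finset.card_univ, Fintype.card_fin, nsmul_eq_mul]
      push_cast
      ring
    rw [Finset.sum_congr rfl fun u _ => h2 u, Fin.sum_univ_two, Matrix.smul_apply, Matrix.one_apply,
      smul_eq_mul]
    by_cases hij : i = j
    · rw [if_pos hij, if_pos (sub_eq_zero.2 hij), if_pos (sub_eq_zero.2 hij)]
      push_cast
      ring
    · rw [if_neg hij, if_neg (fun h => hij (sub_eq_zero.1 h)), if_neg (fun h => hij (sub_eq_zero.1 h))]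
      ring
  cross := fun t t' htt => by
    ext i j
    rw [Matrix.sum_apply, Matrix.zero_apply, Fintype.sum_prod_type]
    refine Finset.sum_eq_zero fun u _ => ?_
    rw [Fintype.sum_prod_type_right]
    refine Finset.sum_eq_zero fun a _ => ?_
    simp only [Matrix.mul_apply, circulant_apply, transpose_apply, FfT]
    rw [Finset.sum_comm]
    refine Finset.sum_eq_zero fun β _ => ?_
    have h := syl_row e (idx t) (idx t')
    rw [if_neg (fun h' => htt (hidx h'))] at h
    have h3 : ∀ b : Fin (2 ^ e), syl e (idx t) b * gS q (l u t) (o u t) (fun n => W (l u t) n a) (i - β) *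
        (syl e (idx t') b * gS q (l u t') (o u t') (fun n => W (l u t') n a) (j - β)) =
        (syl e (idx t) b * syl e (idx t') b) * (gS q (l u t) (o u t) (fun n => W (l u t) n a) (i - β) *
        gS q (l u t') (o u t') (fun n => W (l u t') n a) (j - β)) := fun b => by ring
    rw [Finset.sum_congr rfl fun b _ => h3 b, ← Finset.sum_mul, h, zero_mul]
  zero := fun t a d hd => by
    unfold FfT
    rw [gS_eq hq (hol _ _), if_neg, mul_zero]
    have := hol a.1 t
    omega
  cover := fun a d h1 h2 => by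
    obtain ⟨t, ht, ht'⟩ := hcov a.1 (d.val - 1) (by omega)
    refine ⟨t, ?_, fun t' h' => ?_⟩
    · unfold FfT
      rw [gS_eq hq (hol _ _), if_pos (by omega)]
      exact (syl_sg _ _ _).mul (hs _ (le_trans (Nat.le_add_left _ _) (hol a.1 t)) _ (by omega) _)
    · unfold FfT
      have := ht' t' h'
      rw [gS_eq hq (hol _ _), if_neg (by omega), mul_zero]

end fam

/-- transport along an equivalence of the arms -/
theorem FamT.congr {T κ κ' : Type} [Fintype κ] [Fintype κ'] (e : κ ≃ κ') {S q : ℕ} [NeZero q]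
    {F : T → κ' → ZMod q → ℤ} {s : T → ℤ} (h : FamT T κ' S q F s) :
    FamT T κ S q (fun t a => F t (e a)) s where
  hq := h.hq
  auto := fun t => by
    rw [← h.auto t]
    exact Equiv.sum_comp e (fun a => circulant (F t a) * (circulant (F t a))ᵀ)
  cross := fun t t' htt => by
    rw [← h.cross t t' htt]
    exact Equiv.sum_comp e (fun a => circulant (F t a) * (circulant (F t' a))ᵀ)
  zero := fun t a d hd => h.zero t (e a) d hd
  cover := fun a d h1 h2 => h.cover (e a) d h1 h2

/-- the offsets -/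
def offs {m : ℕ} (l : Fin m → ℕ) (t : Fin m) : ℕ := ∑ i : Fin t.val, l (Fin.castLE t.isLt.le i)

theorem offs_eq {m : ℕ} (l : Fin m → ℕ) (t : Fin m) (j : Fin (l t)) :
    ((finSigmaFinEquiv (⟨t, j⟩ : (i : Fin m) × Fin (l i)) : Fin (∑ i, l i)) : ℕ) = offs l t + j.val :=
  finSigmaFinEquiv_apply _

theorem offs_cover {m S : ℕ} (l : Fin m → ℕ) (hS : ∑ i, l i = S) (s : ℕ) (hs : s < S) :
    ∃ t, (offs l t ≤ s ∧ s < offs l t + l t) ∧
      ∀ t', t' ≠ t → ¬(offs l t' ≤ s ∧ s < offs l t' + l t') := by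
  subst hS
  obtain ⟨⟨t, j⟩, hj⟩ := (finSigmaFinEquiv (m := m) (n := l)).surjective ⟨s, hs⟩
  have h1 := offs_eq l t j
  rw [hj] at h1
  change s = _ at h1
  refine ⟨t, ⟨by omega, by have := j.isLt; omega⟩, fun t' ht' h' => ht' ?_⟩
  obtain ⟨h2, h3⟩ := h'
  have h4 := offs_eq l t' ⟨s - offs l t', by omega⟩
  have h5 : finSigmaFinEquiv (⟨t', ⟨s - offs l t', by omega⟩⟩ : (i : Fin m) × Fin (l i)) =
      finSigmaFinEquiv (⟨t, j⟩ : (i : Fin m) × Fin (l i)) := by
    apply Fin.ext
    rw [h4, hj]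
    change offs l t' + (s - offs l t') = s
    omega
  have h6 := (finSigmaFinEquiv (m := m) (n := l)).injective h5
  exact congrArg Sigma.fst h6

theorem offs_le {m S : ℕ} (l : Fin m → ℕ) (hS : ∑ i, l i = S) (t : Fin m) : offs l t + l t ≤ S := by
  rcases Nat.eq_zero_or_pos (l t) with h | h
  · rw [h, add_zero, ← hS]
    unfold offs
    have h1 : ∑ i : Fin t.val, l (Fin.castLE t.isLt.le i) =
        ∑ i ∈ (univ : Finset (Fin t.val)).map (Fin.castLEEmb t.isLt.le), l i := by
      rw [Finset.sum_map]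
      rfl
    rw [h1]
    exact Finset.sum_le_sum_of_subset (subset_univ _)
  · have h1 := offs_eq l t ⟨l t - 1, by omega⟩
    have h2 := (finSigmaFinEquiv (⟨t, ⟨l t - 1, by omega⟩⟩ : (i : Fin m) × Fin (l i))).isLt
    change _ = offs l t + (l t - 1) at h1
    rw [h1] at h2
    omega

/-- splitting of the lengths -/
theorem split_len {m : ℕ} (L : Fin m → ℕ) (S : ℕ) (h : S ≤ ∑ i, L i) :
    ∃ l : Fin m → ℕ, (∀ i, l i ≤ L i) ∧ ∑ i, l i = S := by
  induction S with
  | zero => exact ⟨fun _ => 0, fun _ => Nat.zero_le _, by simp⟩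
  | succ S ih =>
    obtain ⟨l, h1, h2⟩ := ih (by omega)
    obtain ⟨i, _, hi⟩ : ∃ i ∈ (univ : Finset (Fin m)), l i < L i := by
      apply Finset.exists_lt_of_sum_lt
      omega
    refine ⟨Function.update l i (l i + 1), fun j => ?_, ?_⟩
    · by_cases hj : j = i
      · subst hj; rw [Function.update_self]; exact hi
      · rw [Function.update_of_ne hj]; exact h1 j
    · have h3 := Finset.sum_update_of_mem (mem_univ i) l (l i + 1)
      have h4 := Finset.add_sum_erase univ l (mem_univ i)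
      rw [h3]
      rw [Finset.sdiff_singleton_eq_erase]
      omega

/-- families from para-unitary matrices of all lengths up to `S` -/
theorem exists_famT {κ : Type} [Fintype κ] {m k e S q : ℕ} [NeZero q] (hq : q = 2 * S + 1)
    (hκ : Fintype.card κ = 2 ^ (k + e + 1)) (hm : m ≤ 2 ^ e) (hPU : ∀ l ≤ S, PUk k l) (L : Fin m → ℕ)
    (hL : ∑ i, L i = 2 * S) :
    ∃ (F : Fin m → κ → ZMod q → ℤ) (s : Fin m → ℤ), FamT (Fin m) κ S q F s ∧
      ∀ t, s t = 2 ^ (k + e) * L t := by
  have hex : ∀ l : ℕ, ∃ W : ℕ → Fin (2 ^ k) → ℤ, l ≤ S → (∀ n < l, ∀ a, Sg (W n a)) ∧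
      ∀ d : ZMod q, ∑ j, ∑ n ∈ range l, ∑ m ∈ range l, (W n j * W m j) *
      (if (n : ZMod q) - m = d then 1 else 0) = if d = 0 then ((2 ^ k * l : ℕ) : ℤ) else 0 := by
    intro l
    by_cases hl : l ≤ S
    · obtain ⟨W, hW⟩ := hPU l hl
      refine ⟨fun n a => W n ⟨0, by positivity⟩ a, fun _ => ⟨fun n hn a => hW.sign n hn _ _, fun d => ?_⟩⟩
      have := entry (q := q) hW ⟨0, by positivity⟩ d
      rw [Fintype.card_fin] at this
      exact this
    · exact ⟨fun _ _ => 0, fun h => absurd h hl⟩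
  choose W hW using hex
  obtain ⟨l0, h0, h0S⟩ := split_len L S (by omega)
  have h1S : ∑ i, (L i - l0 i) = S := by
    have h2 : ∑ i, (L i - l0 i) + ∑ i, l0 i = ∑ i, L i := by
      rw [← Finset.sum_add_distrib]
      exact Finset.sum_congr rfl fun i _ => Nat.sub_add_cancel (h0 i)
    omega
  let l : Fin 2 → Fin m → ℕ := fun u t => if u = 0 then l0 t else L t - l0 t
  have hlS : ∀ u, ∑ i, l u i = S := by
    intro u
    by_cases hu : u = 0
    · simp only [l, if_pos hu]; exact h0S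
    · simp only [l, if_neg hu]; exact h1S
  have hfam := fam_of_T (k := k) (e := e) hq W (fun l hl => (hW l hl).1) (fun l hl => (hW l hl).2)
    (Fin.castLE hm) (Fin.castLE_injective hm) (fun u => offs (l u)) l
    (fun u t => offs_le (l u) (hlS u) t) (fun u s hs => offs_cover (l u) (hlS u) s hs)
  have hcard : Fintype.card κ = Fintype.card (Fin 2 × Fin (2 ^ e) × Fin (2 ^ k)) := by
    rw [hκ, Fintype.card_prod, Fintype.card_prod, Fintype.card_fin, Fintype.card_fin,
      Fintype.card_fin, pow_add, pow_add]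
    ring
  refine ⟨_, _, hfam.congr (Fintype.equivOfCardEq hcard), fun t => ?_⟩
  have e1 : l 0 t + l 1 t = L t := by
    simp only [l, if_true, Fin.isValue, one_ne_zero, if_false]
    have := h0 t
    omega
  rw [e1, pow_add]
  push_cast
  ring

end Run7.h900.OD
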